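import Mathlib

namespace Pool.Agent.Results.MP_d21a88_gt.Power

open Matrix

/-- Points of the Euclidean plane in Cartesian coordinates. -/
abbrev Pt := ℝ × ℝ

/-- Squared Euclidean distance. -/
def d2 (P Q : Pt) : ℝ := (P.1 - Q.1) ^ 2 + (P.2 - Q.2) ^ 2

/-- An ellipse `{X : (X - c)ᵀ M (X - c) = 1}`, with `M = [[p, q], [q, r]]` positive definite. -/
structure Ellipse where
  c : Pt
  p : ℝ
  q : ℝ
  r : ℝ
  p_pos : 0 < p
  det_pos : 0 < p * r - q ^ 2

/-- The quadratic function `(X - c)ᵀ M (X - c)`: `1` on the ellipse, `< 1` inside it. -/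
def Ellipse.val (E : Ellipse) (X : Pt) : ℝ :=
  E.p * (X.1 - E.c.1) ^ 2 + 2 * E.q * (X.1 - E.c.1) * (X.2 - E.c.2) + E.r * (X.2 - E.c.2) ^ 2

/-- `v` is the direction of an axis of `E`: an eigenvector of its matrix. -/
def Ellipse.IsAxis (E : Ellipse) (v : Pt) : Prop :=
  v ≠ 0 ∧ ∃ μ : ℝ, E.p * v.1 + E.q * v.2 = μ * v.1 ∧ E.q * v.1 + E.r * v.2 = μ * v.2

/-- The line `AB` meets `E` in exactly one point. -/
def Tangent (E : Ellipse) (A B : Pt) : Prop := ∃! t : ℝ, E.val (A + t • (B - A)) = 1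

/-- `ABC` is a nondegenerate triangle with vertices on `E` and sides tangent to `Ec`. -/
def Periodic (E Ec : Ellipse) (A B C : Pt) : Prop :=
  (B.1 - A.1) * (C.2 - A.2) - (B.2 - A.2) * (C.1 - A.1) ≠ 0 ∧
  E.val A = 1 ∧ E.val B = 1 ∧ E.val C = 1 ∧ Tangent Ec A B ∧ Tangent Ec B C ∧ Tangent Ec C A

/-- `Ec` strictly inside `E`, non-concentric, non-axis-aligned, admitting 3-periodics. -/
def Admissible (E Ec : Ellipse) : Prop :=
  (∀ X, Ec.val X = 1 → E.val X < 1) ∧ E.c ≠ Ec.c ∧ (¬ ∃ v, E.IsAxis v ∧ Ec.IsAxis v) ∧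
  ∃ A B C, Periodic E Ec A B C

/-- The circle with centre `O` and radius `ρ` passes through `A`, `B`, `C`. -/
def Through (O : Pt) (ρ : ℝ) (A B C : Pt) : Prop := d2 A O = ρ ^ 2 ∧ d2 B O = ρ ^ 2 ∧ d2 C O = ρ ^ 2

/-- Midpoint. -/
noncomputable def mid (A B : Pt) : Pt := ((A.1 + B.1) / 2, (A.2 + B.2) / 2)

/-- Some point has constant power with respect to the circumcircles of the family. -/
def CircumPower (E Ec : Ellipse) : Prop :=
  ∃ (P : Pt) (k : ℝ), ∀ A B C, Periodic E Ec A B C → ∀ O ρ, Through O ρ A B C → d2 P O - ρ ^ 2 = k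

/-- Some point has constant power with respect to the Euler circles of the family. -/
def EulerPower (E Ec : Ellipse) : Prop :=
  ∃ (P : Pt) (k : ℝ), ∀ A B C, Periodic E Ec A B C →
    ∀ O ρ, Through O ρ (mid A B) (mid B C) (mid C A) → d2 P O - ρ ^ 2 = k

abbrev M3 := Matrix (Fin 3) (Fin 3) ℝ

theorem core (X Y Z : M3) (hX : Xᵀ = X) (hY : Yᵀ = Y) (hZ : Zᵀ = Z) (h1 : ∀ i, X i i = 0)
    (h2 : ∀ i, Y i i = 0) (h3 : ∀ i, Z i i = 0) :
    (X * Z).trace * (Y * Z).trace = 2 * (X * Z * (Y * Z)).trace := by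
  have sX : ∀ i j, X j i = X i j := fun i j => congrFun (congrFun hX i) j
  have sY : ∀ i j, Y j i = Y i j := fun i j => congrFun (congrFun hY i) j
  have sZ : ∀ i j, Z j i = Z i j := fun i j => congrFun (congrFun hZ i) j
  simp only [Matrix.trace, Matrix.diag, Matrix.mul_apply, Fin.sum_univ_three, h1, h2, h3,
    sX 0 1, sX 0 2, sX 1 2, sY 0 1, sY 0 2, sY 1 2, sZ 0 1, sZ 0 2, sZ 1 2]
  ring

theorem apolar (T S E N : M3) (hT : T.det ≠ 0) (hS : Sᵀ = S) (hE : Eᵀ = E) (hN : Nᵀ = N)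
    (h1 : ∀ i, (Tᵀ * S * T) i i = 0) (h2 : ∀ i, (Tᵀ * E * T) i i = 0)
    (h3 : ∀ i, (T.adjugate * N * T.adjugateᵀ) i i = 0) :
    (S * N).trace * (E * N).trace = 2 * (S * N * (E * N)).trace := by
  have k := core _ _ _ (by simp [Matrix.transpose_mul, hS, Matrix.mul_assoc])
    (by simp [Matrix.transpose_mul, hE, Matrix.mul_assoc])
    (by simp [Matrix.transpose_mul, hN, Matrix.mul_assoc]) h1 h2 h3
  have a1 : T * T.adjugate = T.det • (1 : M3) := Matrix.mul_adjugate T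
  have a2 : T.adjugateᵀ * Tᵀ = T.det • (1 : M3) := by
    rw [← Matrix.transpose_mul, a1]; simp
  have e : ∀ W : M3, Tᵀ * W * T * (T.adjugate * N * T.adjugateᵀ) =
      T.det • (Tᵀ * (W * N) * T.adjugateᵀ) := by
    intro W
    calc _ = Tᵀ * W * (T * T.adjugate) * N * T.adjugateᵀ := by simp only [Matrix.mul_assoc]
      _ = _ := by rw [a1]; simp [Matrix.mul_assoc]
  have f : ∀ W : M3, (Tᵀ * W * T.adjugateᵀ).trace = T.det * W.trace := by
    intro W
    rw [Matrix.trace_mul_cycle, a2]; simp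
  have g : Tᵀ * (S * N) * T.adjugateᵀ * (Tᵀ * (E * N) * T.adjugateᵀ) =
      T.det • (Tᵀ * (S * N * (E * N)) * T.adjugateᵀ) := by
    calc _ = Tᵀ * (S * N) * (T.adjugateᵀ * Tᵀ) * (E * N) * T.adjugateᵀ := by
          simp only [Matrix.mul_assoc]
      _ = _ := by rw [a2]; simp [Matrix.mul_assoc]
  rw [e, e, Matrix.smul_mul, Matrix.mul_smul, g] at k
  simp only [Matrix.trace_smul, f, smul_eq_mul] at k
  have h4 : T.det ^ 4 ≠ 0 := pow_ne_zero _ hT
  apply mul_left_cancel₀ h4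
  linear_combination k

theorem tan_eq (E : Ellipse) (A B : Pt) (hne : A ≠ B) (h : Tangent E A B) :
    E.p * (B.1 - A.1) ^ 2 + 2 * E.q * (B.1 - A.1) * (B.2 - A.2) + E.r * (B.2 - A.2) ^ 2 =
      (E.p * E.r - E.q ^ 2) *
        ((A.1 - E.c.1) * (B.2 - E.c.2) - (A.2 - E.c.2) * (B.1 - E.c.1)) ^ 2 := by
  set a := E.p * (B.1 - A.1) ^ 2 + 2 * E.q * (B.1 - A.1) * (B.2 - A.2) + E.r * (B.2 - A.2) ^ 2
    with ha
  have ha0 : a ≠ 0 := by
    intro h0
    have hp := E.p_pos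
    have hd := E.det_pos
    have e : E.p * a = (E.p * (B.1 - A.1) + E.q * (B.2 - A.2)) ^ 2
        + (E.p * E.r - E.q ^ 2) * (B.2 - A.2) ^ 2 := by rw [ha]; ring
    rw [h0, mul_zero] at e
    have h2 : (B.2 - A.2) ^ 2 = 0 := by
      nlinarith [sq_nonneg (E.p * (B.1 - A.1) + E.q * (B.2 - A.2)), sq_nonneg (B.2 - A.2)]
    have h2' : B.2 - A.2 = 0 := pow_eq_zero_iff (two_ne_zero) |>.1 h2
    rw [h2'] at e
    have h1 : B.1 - A.1 = 0 := by
      have : (E.p * (B.1 - A.1)) ^ 2 = 0 := by linear_combination -e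
      exact (mul_eq_zero.1 (pow_eq_zero_iff (two_ne_zero) |>.1 this)).resolve_left hp.ne'
    exact hne (Prod.ext (by linarith) (by linarith))
  have hd := discrim_eq_zero_of_existsUnique (a := a)
    (b := 2 * (E.p * (A.1 - E.c.1) * (B.1 - A.1) + E.q * ((A.1 - E.c.1) * (B.2 - A.2)
      + (A.2 - E.c.2) * (B.1 - A.1)) + E.r * (A.2 - E.c.2) * (B.2 - A.2)))
    (c := E.val A - 1) ha0 (by
      refine (existsUnique_congr fun t => ?_).1 h
      simp only [Ellipse.val, ha, Prod.fst_add, Prod.snd_add, Prod.smul_fst, Prod.smul_snd,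
        Prod.fst_sub, Prod.snd_sub, smul_eq_mul]
      constructor <;> intro h' <;> linear_combination h')
  simp only [discrim, Ellipse.val, ha] at hd
  rw [ha]
  linear_combination hd / 4

/-- Matrix of `E.val - 1` in homogeneous coordinates centred at `d`. -/
def mat (E : Ellipse) (d : Pt) : M3 :=
  !![E.p, E.q, -(E.p * (E.c.1 - d.1) + E.q * (E.c.2 - d.2));
     E.q, E.r, -(E.q * (E.c.1 - d.1) + E.r * (E.c.2 - d.2));
     -(E.p * (E.c.1 - d.1) + E.q * (E.c.2 - d.2)), -(E.q * (E.c.1 - d.1) + E.r * (E.c.2 - d.2)),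
       E.val d - 1]

def dual (E : Ellipse) : M3 := !![E.r, -E.q, 0; -E.q, E.p, 0; 0, 0, -(E.p * E.r - E.q ^ 2)]

theorem lin (E Ec : Ellipse) {A B C : Pt} (h : Periodic E Ec A B C) (s11 s12 s22 s13 s23 s33 : ℝ)
    (hS : ∀ X, X = A ∨ X = B ∨ X = C → s11 * (X.1 - Ec.c.1) ^ 2
      + 2 * s12 * (X.1 - Ec.c.1) * (X.2 - Ec.c.2) + s22 * (X.2 - Ec.c.2) ^ 2
      + 2 * s13 * (X.1 - Ec.c.1) + 2 * s23 * (X.2 - Ec.c.2) + s33 = 0) :
    (!![s11, s12, s13; s12, s22, s23; s13, s23, s33] * dual Ec).trace * (mat E Ec.c * dual Ec).trace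
      = 2 * (!![s11, s12, s13; s12, s22, s23; s13, s23, s33] * dual Ec
        * (mat E Ec.c * dual Ec)).trace := by
  obtain ⟨h0, hA, hB, hC, tAB, tBC, tCA⟩ := h
  have t1 := tan_eq Ec A B (by rintro rfl; exact h0 (by ring)) tAB
  have t2 := tan_eq Ec B C (by rintro rfl; exact h0 (by ring)) tBC
  have t3 := tan_eq Ec C A (by rintro rfl; exact h0 (by ring)) tCA
  have sA := hS A (by simp)
  have sB := hS B (by simp)
  have sC := hS C (by simp)
  simp only [Ellipse.val] at hA hB hC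
  refine apolar !![A.1 - Ec.c.1, B.1 - Ec.c.1, C.1 - Ec.c.1; A.2 - Ec.c.2, B.2 - Ec.c.2,
    C.2 - Ec.c.2; 1, 1, 1] _ _ _ ?_ ?_ ?_ ?_ ?_ ?_ ?_
  · intro hd
    apply h0
    simp [Matrix.det_fin_three] at hd
    linear_combination hd
  · ext i j; fin_cases i <;> fin_cases j <;> rfl
  · ext i j; fin_cases i <;> fin_cases j <;> rfl
  · ext i j; fin_cases i <;> fin_cases j <;> rfl
  · intro i
    fin_cases i <;> simp [Matrix.mul_apply, Fin.sum_univ_three]
    · linear_combination sA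
    · linear_combination sB
    · linear_combination sC
  · intro i
    fin_cases i <;> simp [Matrix.mul_apply, Fin.sum_univ_three, mat, Ellipse.val]
    · linear_combination hA
    · linear_combination hB
    · linear_combination hC
  · intro i
    fin_cases i <;>
      simp [Matrix.mul_apply, Fin.sum_univ_three, dual, Matrix.adjugate_fin_three]
    · linear_combination t2
    · linear_combination t3
    · linear_combination t1

theorem q1 (E Ec : Ellipse) (hex : ∃ A B C, Periodic E Ec A B C) : CircumPower E Ec := by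
  obtain ⟨A0, B0, C0, h0⟩ := hex
  have hP := lin E Ec h0 E.p E.q E.r (-(E.p * (E.c.1 - Ec.c.1) + E.q * (E.c.2 - Ec.c.2)))
    (-(E.q * (E.c.1 - Ec.c.1) + E.r * (E.c.2 - Ec.c.2))) (E.val Ec.c - 1) (by
      obtain ⟨-, hA, hB, hC, -⟩ := h0
      simp only [Ellipse.val] at *
      rintro X (rfl | rfl | rfl)
      · linear_combination hA
      · linear_combination hB
      · linear_combination hC)
  set u := E.p * (E.c.1 - Ec.c.1) + E.q * (E.c.2 - Ec.c.2) with hu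
  set v := E.q * (E.c.1 - Ec.c.1) + E.r * (E.c.2 - Ec.c.2) with hv
  set e := E.val Ec.c - 1 with he
  set D := Ec.p * Ec.r - Ec.q ^ 2 with hD
  set τ := E.p * Ec.r - 2 * E.q * Ec.q + E.r * Ec.p with hτ
  have hD0 : 0 < D := Ec.det_pos
  simp [Matrix.trace, Matrix.mul_apply, Fin.sum_univ_three, mat, dual, ← hu, ← hv, ← he, ← hD] at hP
  have hG : τ + D * e ≠ 0 := by
    intro hz
    have hq : 0 ≤ Ec.p * (Ec.r * u ^ 2 - 2 * Ec.q * u * v + Ec.p * v ^ 2) := by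
      have : Ec.p * (Ec.r * u ^ 2 - 2 * Ec.q * u * v + Ec.p * v ^ 2)
        = (Ec.p * v - Ec.q * u) ^ 2 + D * u ^ 2 := by rw [hD]; ring
      rw [this]; positivity
    have hq' := nonneg_of_mul_nonneg_right hq Ec.p_pos
    have hz2 : D * ((E.p * E.r - E.q ^ 2) + (Ec.r * u ^ 2 - 2 * Ec.q * u * v + Ec.p * v ^ 2)) = 0 := by
      rw [hτ] at hz
      linear_combination hP / 4 + ((E.p * Ec.r - 2 * E.q * Ec.q + E.r * Ec.p) / 4 - D * e / 4
        + (D * e) / 2) * hz + (E.p * E.r - E.q ^ 2) * hD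
    have := E.det_pos
    have : 0 < D * ((E.p * E.r - E.q ^ 2) + (Ec.r * u ^ 2 - 2 * Ec.q * u * v + Ec.p * v ^ 2)) := by
      positivity
    linarith
  set x := 2 * (Ec.r * u - Ec.q * v) / (τ + D * e) with hx
  set y := 2 * (Ec.p * v - Ec.q * u) / (τ + D * e) with hy
  set w := ((τ - D * e) * (Ec.p + Ec.r) - 2 * (E.p * (Ec.r ^ 2 + Ec.q ^ 2)
    - 2 * E.q * Ec.q * (Ec.p + Ec.r) + E.r * (Ec.p ^ 2 + Ec.q ^ 2))) / (D * (τ + D * e)) with hw
  refine ⟨(Ec.c.1 + x, Ec.c.2 + y), x ^ 2 + y ^ 2 + w, fun A B C h O ρ ⟨c1, c2, c3⟩ => ?_⟩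
  have hS := lin E Ec h 1 0 1 (-(O.1 - Ec.c.1)) (-(O.2 - Ec.c.2))
    ((O.1 - Ec.c.1) ^ 2 + (O.2 - Ec.c.2) ^ 2 - ρ ^ 2) (by
      simp only [d2] at *
      rintro X (rfl | rfl | rfl)
      · linear_combination c1
      · linear_combination c2
      · linear_combination c3)
  simp [Matrix.trace, Matrix.mul_apply, Fin.sum_univ_three, mat, dual, ← hu, ← hv, ← he, ← hD] at hS
  have ex : x * (τ + D * e) = 2 * (Ec.r * u - Ec.q * v) := by rw [hx]; field_simp
  have ey : y * (τ + D * e) = 2 * (Ec.p * v - Ec.q * u) := by rw [hy]; field_simp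
  have ew : w * (D * (τ + D * e)) = ((τ - D * e) * (Ec.p + Ec.r) - 2 * (E.p * (Ec.r ^ 2 + Ec.q ^ 2)
    - 2 * E.q * Ec.q * (Ec.p + Ec.r) + E.r * (Ec.p ^ 2 + Ec.q ^ 2))) := by
    rw [hw]; field_simp
  apply mul_left_cancel₀ (mul_ne_zero hD0.ne' hG)
  simp only [d2]
  rw [hτ] at *
  linear_combination -hS - 2 * D * (O.1 - Ec.c.1) * ex - 2 * D * (O.2 - Ec.c.2) * ey - ew

theorem tan_of (E : Ellipse) (A B : Pt) (a t0 : ℝ) (ha : a ≠ 0)
    (h : ∀ t : ℝ, E.val (A + t • (B - A)) - 1 = a * (t - t0) ^ 2) : Tangent E A B := by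
  refine ⟨t0, by linear_combination h t0, fun t ht => ?_⟩
  have h1 := h t
  simp only at ht
  rw [ht, sub_self] at h1
  have := (mul_eq_zero.1 h1.symm).resolve_left ha
  linarith [pow_eq_zero_iff (two_ne_zero) |>.1 this]

theorem q2 : ∃ E Ec : Ellipse, Admissible E Ec ∧ ¬ EulerPower E Ec := by
  obtain ⟨s, hs0, hs⟩ : ∃ s : ℝ, 0 < s ∧ s ^ 2 = 5 :=
    ⟨√5, by positivity, Real.sq_sqrt (by norm_num)⟩
  let E : Ellipse := ⟨(0, 0), 1 / 125, 0, 1 / 25, by norm_num, by norm_num⟩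
  let Ec : Ellipse := ⟨(-7 * s / 4, 1 / 4), 121 / 1800, -13 * s / 1800, 49 / 360, by norm_num,
    by nlinarith⟩
  have T1 : Periodic E Ec (-5 * s, 0) (0, 5) (0, -5) := by
    refine ⟨fun h => by dsimp only at h; linarith, by simp [E, Ellipse.val]; linear_combination hs / 5,
      by simp [E, Ellipse.val]; norm_num, by simp [E, Ellipse.val]; norm_num,
      tan_of _ _ _ 10 (1 / 2) (by norm_num) fun t => ?_,
      tan_of _ _ _ (245 / 18) (3 / 7) (by norm_num) fun t => ?_,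
      tan_of _ _ _ (245 / 18) (4 / 7) (by norm_num) fun t => ?_⟩ <;>
    simp only [Ec, Ellipse.val, Prod.fst_add, Prod.snd_add, Prod.smul_fst, Prod.smul_snd,
        Prod.fst_sub, Prod.snd_sub, smul_eq_mul] <;> ring_nf <;> rw [hs] <;> ring
  have T2 : Periodic E Ec (-4 * s, 3) (-3 * s, -4) (4 * s, 3) := by
    refine ⟨fun h => by dsimp only at h; linarith, by simp [E, Ellipse.val]; linear_combination 16 * hs / 125,
      by simp [E, Ellipse.val]; linear_combination 9 * hs / 125,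
      by simp [E, Ellipse.val]; linear_combination 16 * hs / 125,
      tan_of _ _ _ (338 / 45) (7 / 13) (by norm_num) fun t => ?_,
      tan_of _ _ _ (98 / 5) (2 / 7) (by norm_num) fun t => ?_,
      tan_of _ _ _ (968 / 45) (15 / 22) (by norm_num) fun t => ?_⟩ <;>
    simp only [Ec, Ellipse.val, Prod.fst_add, Prod.snd_add, Prod.smul_fst, Prod.smul_snd,
        Prod.fst_sub, Prod.snd_sub, smul_eq_mul] <;> ring_nf <;> rw [hs] <;> ring
  refine ⟨E, Ec, ⟨fun X hX => ?_, fun h => ?_, ?_, _, _, _, T1⟩, ?_⟩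
  · obtain ⟨x, y⟩ := X
    obtain ⟨X, rfl⟩ : ∃ X, x = s * X := ⟨x / s, by field_simp⟩
    simp only [E, Ec, Ellipse.val] at hX ⊢
    have h1 : 121 * (X + 7 / 4) ^ 2 - 26 * (X + 7 / 4) * (y - 1 / 4) + 49 * (y - 1 / 4) ^ 2
        = 360 := by
      linear_combination 360 * hX - (121 / 5 * (X + 7 / 4) ^ 2
        - 26 / 5 * (X + 7 / 4) * (y - 1 / 4)) * hs
    have h2 : X ^ 2 + y ^ 2 < 25 := by
      nlinarith [sq_nonneg (X + 2), sq_nonneg (y - 1 / 4), sq_nonneg (X + 7 / 4 - (y - 1 / 4)),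
        sq_nonneg (X + 7 / 4)]
    nlinarith
  · have := congrArg Prod.snd h
    simp [E, Ec] at this
  · rintro ⟨⟨v1, v2⟩, ⟨hv, μ, a1, a2⟩, -, ν, b1, b2⟩
    simp only [E, Ec] at a1 a2 b1 b2
    have h12 : v1 * v2 = 0 := by linear_combination (-125 / 4) * (v2 * a1 - v1 * a2)
    apply hv
    rcases mul_eq_zero.1 h12 with h | h
    · have : s * v2 = 0 := by rw [h] at b1; linear_combination (-1800 / 13) * b1
      simp [h, (mul_eq_zero.1 this).resolve_left hs0.ne']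
    · have : s * v1 = 0 := by rw [h] at b2; linear_combination (-1800 / 13) * b2
      simp [h, (mul_eq_zero.1 this).resolve_left hs0.ne']
  · rintro ⟨P, k, h⟩
    have k1 := h _ _ _ T1 (-3 * s / 2, 0) (3 * s / 2) (by
      simp only [Through, d2, mid]
      refine ⟨?_, ?_, ?_⟩ <;> ring_nf <;> rw [hs] <;> norm_num)
    have k2 := h _ _ _ T2 (-3 * s / 2, 0) (9 / 2) (by
      simp only [Through, d2, mid]
      refine ⟨?_, ?_, ?_⟩ <;> ring_nf <;> rw [hs] <;> norm_num)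
    nlinarith

theorem result : (∀ E Ec : Ellipse, Admissible E Ec → CircumPower E Ec) ∧
    ∃ E Ec : Ellipse, Admissible E Ec ∧ ¬ EulerPower E Ec :=
  ⟨fun E Ec h => q1 E Ec h.2.2.2, q2⟩

end Pool.Agent.Results.MP_d21a88_gt.Power
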